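import Pool.Agent.T6.H46.RC.Key

/-!
# Quasi-convex subgroups and rank one isometries: explicit elements

A form of `Pool.Agent.T6.H46.RC.dyn` in which the element is `k' ^ a * k ^ b` for a fixed `b` and all
large `a`.
-/

set_option autoImplicit false

open Metric Set Filter Topology
open Pool.Agent.TH60.FP Pool.Agent.TH60.FP.Strip Pool.Agent.Y34.HB Pool.Agent.Y34.EL
open Pool.Agent.T6.H46.RR Pool.Agent.T6.H46.RC

namespace Pool.Agent.U631.VG

variable {X : Type} [MetricSpace X] {K : Type} [Group K] [MulAction K X]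

/-- the last step (after `Pool.Agent.T6.H46.RC.dyn_aux`) -/
lemma dyn_aux (hG : Geo X K) {k : K} {τ R D : ℝ} {c : ℝ → X} (hk : Axis k τ c)
    (hP : Pass c τ R D) {A₁ A₂ : Subgroup K} (hA₁ : QCat A₁ (c 0))
    (hno : ∀ l : ℕ, 0 < l → k ^ l ∉ A₁) (g₁ : K) (o : X) (S₃ : ℝ)
    (h₃ : ∀ s ∈ A₂, ∀ t, Pj c (g₁ • s • o) t → -S₃ ≤ t) :
    ∃ a₀ : ℕ, ∀ a, a₀ ≤ a →
      {s : K | s ∈ A₁ ∧ (k ^ a * g₁)⁻¹ * s * (k ^ a * g₁) ∈ A₂}.Finite := by
  have := hG.isom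
  have := hG.proper
  obtain ⟨S₁, hS0, hS₁⟩ := qc_bound hG hk hP hA₁ hno
  obtain ⟨hc, hτ, hR, hD, hpass⟩ := hP
  obtain ⟨i₁, hi₁⟩ : ∃ i₁ : ℕ, S₁ + D ≤ i₁ * τ := by
    refine ⟨⌈(S₁ + D) / τ⌉₊, ?_⟩
    have := Nat.le_ceil ((S₁ + D) / τ)
    rwa [div_le_iff₀ hτ] at this
  obtain ⟨a₀, ha₀⟩ : ∃ a : ℕ, i₁ * τ + D + S₃ ≤ a * τ := by
    refine ⟨⌈(i₁ * τ + D + S₃) / τ⌉₊, ?_⟩
    have := Nat.le_ceil ((i₁ * τ + D + S₃) / τ)
    rwa [div_le_iff₀ hτ] at this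
  refine ⟨a₀, fun a haa => ?_⟩
  have ha : i₁ * τ + D + S₃ ≤ a * τ := by
    have : (a₀ : ℝ) * τ ≤ a * τ := mul_le_mul_of_nonneg_right (by exact_mod_cast haa) hτ.le
    linarith
  set g : K := k ^ a * g₁ with hg
  refine (finite_short hG (c 0) (i₁ * τ + R + dist (c 0) (g • o))).subset ?_
  rintro s ⟨hs1, hs2⟩
  show dist (c 0) (s • c 0) ≤ _
  obtain ⟨t₁, ht₁⟩ := exists_pj hc (s • c 0)
  obtain ⟨t₂, ht₂⟩ := exists_pj hc (s • g • o)
  have h1 := (abs_le.1 (hS₁ s hs1 t₁ ht₁)).2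
  have h2 : a * τ - S₃ ≤ t₂ := by
    have e : s • g • o = k ^ (a : ℤ) • g₁ • (g⁻¹ * s * g) • o := by
      rw [smul_smul, smul_smul, smul_smul, hg, zpow_natCast]
      congr 1; group
    rw [e] at ht₂
    have h3 := h₃ _ hs2 _ (pj_smul hk _ ht₂)
    push_cast at h3
    linarith
  obtain ⟨m, hm1, hm2⟩ := hpass (s • c 0) (s • g • o) t₁ t₂ (i₁ : ℤ) ht₁ ht₂
    (by push_cast; linarith) (by push_cast; linarith)
  rw [dist_smul] at hm1
  have h4 := dist_triangle (c 0) (c (((i₁ : ℤ) : ℝ) * τ)) (s • c 0)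
  have h5 := dist_triangle (c (((i₁ : ℤ) : ℝ) * τ)) m (s • c 0)
  have h6 : dist (c 0) (c (((i₁ : ℤ) : ℝ) * τ)) = i₁ * τ := by
    rw [hc.dist_eq, Real.dist_eq, zero_sub, abs_neg]
    push_cast
    exact abs_of_nonneg (by positivity)
  have h7 := dist_nonneg (x := m) (y := s • g • o)
  rw [dist_comm m (s • c 0)] at h5
  linarith

/-- two quasi-convex subgroups which both miss the powers of some rank one isometries have a finite
intersection after a conjugation (after `Pool.Agent.T6.H46.RC.dyn`) -/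
theorem dyn (hG : Geo X K) {k k' : K} {τ R D τ' R' D' : ℝ} {c c' : ℝ → X} (hk : Axis k τ c)
    (hP : Pass c τ R D) (hk' : Axis k' τ' c') (hP' : Pass c' τ' R' D') {A₁ A₂ : Subgroup K}
    (hA₁ : ∀ o : X, QCat A₁ o) (hA₂ : ∀ o : X, QCat A₂ o) (hno : ∀ l : ℕ, 0 < l → k ^ l ∉ A₂)
    (hno' : ∀ l : ℕ, 0 < l → k' ^ l ∉ A₁) :
    ∃ b a₀ : ℕ, ∀ a, a₀ ≤ a →
      {s : K | s ∈ A₁ ∧ (k' ^ a * k ^ b)⁻¹ * s * (k' ^ a * k ^ b) ∈ A₂}.Finite := by
  have := hG.isom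
  have := hG.proper
  by_cases hrel : ∃ l : ℕ, 0 < l ∧ k' ^ l ∈ Subgroup.zpowers k
  · -- commensurable
    obtain ⟨l, hl, hl'⟩ := hrel
    obtain ⟨m, hm⟩ := Subgroup.mem_zpowers_iff.1 hl'
    have hno2 : ∀ l : ℕ, 0 < l → k' ^ l ∉ A₂ := by
      intro l' hl' h
      have h1 : k ^ (m * l') ∈ A₂ := by
        have e : k ^ (m * l') = (k' ^ l') ^ l := by
          rw [zpow_mul, hm, zpow_natCast, ← pow_mul, ← pow_mul, mul_comm]
        rw [e]; exact A₂.pow_mem h l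
      have hm0 : m ≠ 0 := by
        rintro rfl
        rw [zpow_zero] at hm
        have := axis_pow_ne hP'.2.1 hk' (i := (l : ℤ)) (by exact_mod_cast hl.ne')
        rw [zpow_natCast] at this
        exact this hm.symm
      obtain ⟨n, hn | hn⟩ := m.eq_nat_or_neg
      · refine hno (n * l') (Nat.mul_pos (Nat.pos_of_ne_zero ?_) hl') ?_
        · rintro rfl; exact hm0 (by simpa using hn)
        · rw [hn] at h1
          exact_mod_cast h1
      · refine hno (n * l') (Nat.mul_pos (Nat.pos_of_ne_zero ?_) hl') ?_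
        · rintro rfl; exact hm0 (by simpa using hn)
        · rw [hn, neg_mul, zpow_neg] at h1
          exact_mod_cast A₂.inv_mem_iff.1 h1
    obtain ⟨S, hS0, hS⟩ := qc_bound hG hk' hP' (hA₂ _) hno2
    refine ⟨0, ?_⟩
    simp only [pow_zero]
    refine dyn_aux hG hk' hP' (hA₁ _) hno' 1 (c' 0) S fun s hs t ht => ?_
    rw [one_smul] at ht
    exact (abs_le.1 (hS s hs t ht)).1
  · push Not at hrel
    -- independent
    obtain ⟨S, hS0, hS⟩ := qc_bound hG hk' hP' (A := Subgroup.zpowers k)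
      ((qc_zpowers hG.cn hP.2.1 hk).change hG.cn _) hrel
    obtain ⟨S₂, hS20, hS₂⟩ := qc_bound hG hk hP (hA₂ _) hno
    obtain ⟨hc, hτ, hR, hD, hpass⟩ := hP
    have hP'' := hP'
    obtain ⟨hc', hτ', hR', hD', hpass'⟩ := hP'
    obtain ⟨j₁, hj₁⟩ : ∃ j₁ : ℕ, S + D' ≤ j₁ * τ' := by
      refine ⟨⌈(S + D') / τ'⌉₊, ?_⟩
      have := Nat.le_ceil ((S + D') / τ')
      rwa [div_le_iff₀ hτ'] at this
    set w : X := c' (((-(j₁ : ℤ) : ℤ) : ℝ) * τ') with hw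
    obtain ⟨i, hi⟩ : ∃ i : ℕ, dist (c 0) w + dist (c 0) (c' 0) + R + R' + D + 1 ≤ i * τ := by
      refine ⟨⌈(dist (c 0) w + dist (c 0) (c' 0) + R + R' + D + 1) / τ⌉₊, ?_⟩
      have := Nat.le_ceil ((dist (c 0) w + dist (c 0) (c' 0) + R + R' + D + 1) / τ)
      rwa [div_le_iff₀ hτ] at this
    obtain ⟨b, hb⟩ : ∃ b : ℕ, i * τ + D + S₂ ≤ b * τ := by
      refine ⟨⌈(i * τ + D + S₂) / τ⌉₊, ?_⟩
      have := Nat.le_ceil ((i * τ + D + S₂) / τ)
      rwa [div_le_iff₀ hτ] at this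
    refine ⟨b, ?_⟩
    refine dyn_aux hG hk' hP'' (hA₁ _) hno' (k ^ b) (c 0) (j₁ * τ' + D')
      fun s hs t' ht' => ?_
    by_contra hcon
    push Not at hcon
    rw [← zpow_natCast k b] at ht'
    set z : X := k ^ (b : ℤ) • s • c 0 with hz
    obtain ⟨t, ht⟩ := exists_pj hc z
    have h1 := (abs_le.1 (hS₂ s hs _ (pj_smul hk _ ht))).1
    push_cast at h1
    have hd0 := dist_nonneg (x := c 0) (y := w)
    have hd1 := dist_nonneg (x := c 0) (y := c' 0)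
    obtain ⟨m, hm1, hm2⟩ := hpass (c 0) z 0 t (i : ℤ) (pj_self 0) ht
      (by push_cast; linarith) (by push_cast; linarith)
    obtain ⟨t₃, ht₃⟩ := exists_pj hc' (k ^ (i : ℤ) • c' 0)
    have h2 := (abs_le.1 (hS (k ^ (i : ℤ)) (Subgroup.mem_zpowers_iff.2 ⟨_, rfl⟩) t₃ ht₃)).1
    obtain ⟨m', hm1', hm2'⟩ := hpass' z (k ^ (i : ℤ) • c' 0) t' t₃ (-(j₁ : ℤ)) ht' ht₃
      (by push_cast; linarith) (by push_cast; linarith)
    rw [← hw] at hm2'
    have hci : c (((i : ℤ) : ℝ) * τ) = k ^ (i : ℤ) • c 0 := by rw [axis_zpow hk, zero_add]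
    set q : X := c (((i : ℤ) : ℝ) * τ) with hq
    have hoq : dist (c 0) q = i * τ := by
      rw [hq, hc.dist_eq, Real.dist_eq, zero_sub, abs_neg]
      push_cast
      exact abs_of_nonneg (by positivity)
    have e1 := dist_triangle (c 0) m q
    have e2 := dist_triangle q m z
    have e3 := dist_triangle (c 0) w z
    have e4 := dist_triangle z m' w
    have e5 := dist_triangle w m' (k ^ (i : ℤ) • c' 0)
    have e6 := dist_triangle z q (k ^ (i : ℤ) • c' 0)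
    have e7 := dist_triangle (c 0) w q
    have e8 := dist_triangle w (k ^ (i : ℤ) • c' 0) q
    have e9 : dist q (k ^ (i : ℤ) • c' 0) = dist (c 0) (c' 0) := by rw [hci, dist_smul]
    rw [dist_comm m q] at e1
    rw [dist_comm m' w, dist_comm z w] at e4
    rw [dist_comm (k ^ (i : ℤ) • c' 0) q, e9] at e8
    rw [e9, dist_comm z q] at e6
    linarith

end Pool.Agent.U631.VG
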