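import Pool.Agent.T6.H46.RC.Tr

/-!
# Ping-pong with two elliptic elements of a tree
-/

set_option autoImplicit false

open Pool.Agent.T6.H67.TA Pool.Agent.T6.H46.RR

namespace Pool.Agent.U631.VG

variable {V : Type} {T : SimpleGraph V} (hT : T.IsTree)

include hT in
/-- two geodesics which overlap in a nontrivial geodesic -/
lemma concat {x y z w : V} (h1 : D T x z = D T x y + D T y z) (h2 : D T y w = D T y z + D T z w)
    (h0 : 0 < D T y z) : D T x w = D T x y + D T y z + D T z w := by
  have h3 := P_min hT z y w x
  have h4 := P_nonneg hT z x w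
  have e1 : P T z y w = 0 := by unfold P; rw [D_comm z y]; omega
  have e2 : P T z y x = 2 * D T y z := by unfold P; rw [D_comm z y, D_comm z x, D_comm y x]; omega
  rw [e1, e2] at h3
  have h5 : P T z x w = 0 := by
    rcases min_le_iff.1 h3 with h | h <;> omega
  unfold P at h5
  rw [D_comm z x] at h5
  omega

variable {G : Type} [Group G] [MulAction G V]
  (hact : ∀ (g : G) (u v : V), T.Adj u v → T.Adj (g • u) (g • v))

include hT hact in
/-- an element which fixes `b` and moves the direction of `c` -/
lemma mv_of_ne {b c n : V} (hn : T.Adj b n) (hnc : D T n c = D T b c - 1) {s : G}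
    (hs : s • b = b) (hne : s • n ≠ n) : D T c (s • c) = 2 * D T b c := by
  have e1 : D T b (s • c) = D T b c := by
    have := D_smul hT hact s b c
    rwa [hs] at this
  have hadj : T.Adj b (s • n) := by
    have := hact s b n hn
    rwa [hs] at this
  have e2 : D T (s • n) (s • c) = D T b (s • c) - 1 := by
    rw [D_smul hT hact, e1, hnc]
  have e3 : D T n (s • c) = D T b (s • c) + 1 := by
    rcases adj_pm hT hn (s • c) with h | h
    · exact h
    · exact absurd (closer_unique hT hadj e2 hn h) hne
  have h := add_of_dir hT c (s • c) (D T b (s • c)).toNat b n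
    (by rw [Int.toNat_of_nonneg (D_nonneg _ _)]) hn hnc e3
  rw [h, e1, D_comm c b]; ring

include hT hact in
/-- **Ping-pong.** If `g` fixes `b` and moves the direction of `c`, and `k` fixes `c` and moves the
direction of `b`, then `g k` is hyperbolic, and the elements which fix a segment of its axis fix
`b`, `c` and `g c`. -/
lemma ping {b c : V} (hbc : b ≠ c) {g k : G} (hg : g • b = b)
    (hg' : D T c (g • c) = 2 * D T b c) (hk : k • c = c) (hk' : D T b (k • b) = 2 * D T c b) :
    OnAxis T (g * k) c ∧ ∀ s : G, s • c = c → s • (g * k) ^ 2 • c = (g * k) ^ 2 • c →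
      s • b = b ∧ s • g • c = g • c := by
  have hm := D_pos hT hbc
  set m := D T b c with hmd
  have hcb : D T c b = m := D_comm c b
  rw [hcb] at hk'
  set F := g * k with hF
  have hFc : F • c = g • c := by rw [hF, mul_smul, hk]
  have hF2 : F ^ 2 • c = g • k • g • c := by
    rw [pow_two, mul_smul F F c, hFc, hF, mul_smul g k]
  -- distances
  have a1 : D T b (g • c) = m := by
    have := D_smul hT hact g b c
    rwa [hg] at this
  have a2 : D T (g • c) (g • k • b) = m := by
    rw [D_smul hT hact]
    have := D_smul hT hact k c b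
    rw [hk] at this
    rw [this, hcb]
  have a3 : D T b (g • k • b) = 2 * m := by
    have := D_smul hT hact g b (k • b)
    rw [hg] at this
    rw [this, hk']
  have a4 : D T (g • k • b) (g • k • g • c) = m := by
    rw [D_smul hT hact, D_smul hT hact, a1]
  have a5 : D T (g • c) (g • k • g • c) = 2 * m := by
    rw [D_smul hT hact]
    have := D_smul hT hact k c (g • c)
    rw [hk] at this
    rw [this, hg']
  have c1 : D T c (g • k • b) = 3 * m := by
    have := concat hT (x := c) (y := b) (z := g • c) (w := g • k • b) (by omega) (by omega)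
      (by omega)
    omega
  have c2 : D T c (g • k • g • c) = 4 * m := by
    have := concat hT (x := c) (y := g • c) (z := g • k • b) (w := g • k • g • c) (by omega)
      (by omega) (by omega)
    omega
  refine ⟨⟨?_, ?_⟩, fun s hs1 hs2 => ?_⟩
  · rw [hFc]; omega
  · unfold P
    have k1 : D T c (F⁻¹ • c) = D T c (F • c) := D_inv hT hact F c
    have k2 : D T (F • c) (F⁻¹ • c) = D T c (F ^ 2 • c) := by
      rw [Pool.Agent.T6.H46.RC.D_inv' hT hact F (F • c) c, pow_two, mul_smul F F c]
    rw [k1, k2, hFc, hF2]
    omega
  · rw [hF2] at hs2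
    have hfix : ∀ z : V, D T c z + D T z (g • k • g • c) = 4 * m → s • z = z := by
      intro z hz
      refine fix_between hT hact (a := c) (b := g • k • g • c) ?_ hs1 hs2
      unfold P
      rw [D_comm z c]; omega
    have t1 := D_tri hT b (g • c) (g • k • g • c)
    have t2 := D_tri hT c b (g • k • g • c)
    exact ⟨hfix b (by omega), hfix (g • c) (by omega)⟩

end Pool.Agent.U631.VG
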