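import Pool.Agent.U631.VG.Dyn2
import Pool.Agent.U631.VG.Ping
import Pool.Agent.T6.H46.RC.Fin

/-!
# Vertex stabilisers which are convex cocompact and contain rank one isometries
-/

set_option autoImplicit false

open Metric Set Filter Topology
open Pool.Agent.TH60.FP Pool.Agent.TH60.FP.Strip Pool.Agent.Y34.HB Pool.Agent.Y34.EL
open Pool.Agent.T6.H46.RR Pool.Agent.T6.H67.TA Pool.Agent.T6.H46.RC

namespace Pool.Agent.U631.VG

variable {X : Type} [MetricSpace X] {G : Type} [Group G] [MulAction G X]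

/-- If no power of the rank one isometry `u` of `B` is in `A = K ∩ t K t⁻¹`, and `n` is a point which
is not fixed by `K`, then there is `g` in `K` which moves `n` such that `A ∩ g A g⁻¹` is finite. -/
lemma exists_elt {V : Type} [MulAction G V] (hG : Geo X G) {K : Subgroup G} {B : Set X}
    (hB : CC K B) (u : K) {τ : ℝ} (hτ : 0 < τ) {c : ℝ → B} (hu : @Axis B _ K _ (bact hB) u τ c)
    (hHP : HP c = ∅) (t : G) (hno : ∀ l : ℕ, 0 < l → u ^ l ∉ IK K t) {n : V}
    (hn : ∃ s ∈ K, s • n ≠ n) :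
    ∃ g : K, (g : G) • n ≠ n ∧ {s : K | s ∈ IK K t ∧ g⁻¹ * s * g ∈ IK K t}.Finite := by
  let _ := bact hB
  have hGB := geo_sub hG hB
  have := hGB.isom
  have := hGB.proper
  obtain ⟨R, D, hP⟩ := pass_of_axis hGB.cn hτ hu hHP
  by_cases hfix : (u : G) • n = n
  · -- `u` fixes `n`
    obtain ⟨g₁, hg₁, hne⟩ := hn
    have hpow : ∀ i : ℕ, (u : G) ^ i • n = n := by
      intro i
      induction i with
      | zero => simp
      | succ i ih => rw [pow_succ, mul_smul, hfix, ih]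
    set g₀ : K := ⟨g₁, hg₁⟩ with hg₀
    have hmem : ∀ s : K, s ∈ IK K (g₁ * t) ↔ g₀⁻¹ * s * g₀ ∈ IK K t := by
      intro s
      rw [mem_IK, mem_IK]
      have : t⁻¹ * ((g₀⁻¹ * s * g₀ : K) : G) * t = (g₁ * t)⁻¹ * s * (g₁ * t) := by
        show t⁻¹ * (g₁⁻¹ * s * g₁) * t = _
        group
      rw [this]
    obtain ⟨b, a₀, h⟩ := dyn hGB (axis_conj hu g₀) (hP.smul g₀) hu hP
      (A₁ := IK K t) (A₂ := IK K (g₁ * t)) (qc_IK hG hB t) (qc_IK hG hB (g₁ * t))
      (fun l hl hl' => by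
        rw [hmem] at hl'
        refine hno l hl ?_
        have : g₀⁻¹ * (g₀ * u * g₀⁻¹) ^ l * g₀ = u ^ l := by
          rw [conj_pow]; group
        rwa [this] at hl') hno
    refine ⟨u ^ a₀ * (g₀ * u * g₀⁻¹) ^ b * g₀, ?_, ?_⟩
    · intro h1
      have e : ((u ^ a₀ * (g₀ * u * g₀⁻¹) ^ b * g₀ : K) : G) = (u : G) ^ a₀ * g₁ * (u : G) ^ b := by
        rw [conj_pow]
        show (u : G) ^ a₀ * (g₁ * (u : G) ^ b * g₁⁻¹) * g₁ = _
        group
      rw [e, mul_smul, hpow, mul_smul] at h1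
      have h2 := hpow a₀
      have h3 : g₁ • n = n := by
        have := h1.trans h2.symm
        exact smul_left_cancel _ this
      exact hne h3
    · refine (h a₀ le_rfl).subset ?_
      rintro s ⟨h1, h2⟩
      refine ⟨h1, ?_⟩
      rw [hmem]
      convert h2 using 1
      group
  · obtain ⟨b, a₀, h⟩ := dyn hGB hu hP hu hP (A₁ := IK K t) (A₂ := IK K t) (qc_IK hG hB t)
      (qc_IK hG hB t) hno hno
    have key : ∃ a, a₀ ≤ a ∧ (u : G) ^ (a + b) • n ≠ n := by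
      by_contra hcon
      push Not at hcon
      have h1 := hcon a₀ le_rfl
      have h2 := hcon (a₀ + 1) (by omega)
      rw [show a₀ + 1 + b = 1 + (a₀ + b) by ring, pow_add, mul_smul, h1, pow_one] at h2
      exact hfix h2
    obtain ⟨a, ha, hne⟩ := key
    refine ⟨u ^ a * u ^ b, ?_, h a ha⟩
    rw [← pow_add]
    exact hne

variable {V : Type} {T : SimpleGraph V} (hT : T.IsTree) [MulAction G V]
  (hact : ∀ (g : G) (u v : V), T.Adj u v → T.Adj (g • u) (g • v))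

omit [MulAction G X] in
include hT hact in
/-- a stabiliser which fixes only one vertex moves all directions -/
lemma exists_mv {K : Subgroup G} {b : V} (hK : ∀ s : G, s ∈ K ↔ s • b = b)
    (hfix : ∀ v : V, (∀ s ∈ K, s • v = v) → v = b) {d : V} (hd : b ≠ d) :
    ∃ s ∈ K, D T d (s • d) = 2 * D T b d := by
  obtain ⟨n, hn, hnd⟩ := exists_closer hT hd
  obtain ⟨s, hs, hne⟩ : ∃ s ∈ K, s • n ≠ n := by
    by_contra hcon
    push Not at hcon
    exact hn.ne (hfix n hcon).symm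
  exact ⟨s, hs, mv_of_ne hT hact hn hnd ((hK s).1 hs) hne⟩

omit [MulAction G X] in
include hT hact in
/-- the same for a translate of the vertex -/
lemma exists_mv' {K : Subgroup G} {b : V} (hK : ∀ s : G, s ∈ K ↔ s • b = b)
    (hfix : ∀ v : V, (∀ s ∈ K, s • v = v) → v = b) {t : G} (ht : b ≠ t • b) :
    ∃ k : G, k • t • b = t • b ∧ D T b (k • b) = 2 * D T (t • b) b := by
  have h1 : b ≠ t⁻¹ • b := by
    intro h
    apply ht
    rw [eq_inv_smul_iff] at h
    exact h.symm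
  obtain ⟨s, hs, hs'⟩ := exists_mv hT hact hK hfix h1
  refine ⟨t * s * t⁻¹, ?_, ?_⟩
  · rw [mul_smul, inv_smul_smul, mul_smul, (hK s).1 hs]
  · have e1 : D T b ((t * s * t⁻¹) • b) = D T (t⁻¹ • b) (s • t⁻¹ • b) := by
      rw [← D_smul hT hact t (t⁻¹ • b), smul_inv_smul, smul_smul, smul_smul, mul_assoc]
    have e2 : D T b (t⁻¹ • b) = D T (t • b) b := by
      rw [← D_smul hT hact t, smul_inv_smul]
    rw [e1, hs', e2]

include hT hact in
/-- **Main alternative.** -/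
theorem rank_one_or (hG : Geo X G) {K : Subgroup G} {B : Set X} (hB : CC K B) (k : K) {τ : ℝ}
    (hτ : 0 < τ) {c : ℝ → B} (hk : @Axis B _ K _ (bact hB) k τ c) (hHP : HP c = ∅)
    {b : V} (hK : ∀ s : G, s ∈ K ↔ s • b = b) (hfix : ∀ v : V, (∀ s ∈ K, s • v = v) → v = b) :
    (∃ g : G, RankOne X g) ∨ ∀ g : G, Bd B g := by
  by_cases hno : ∃ g : G, RankOne X g
  · exact Or.inl hno
  right
  intro t
  by_contra ht
  apply hno
  have hisom := hG.isom
  have htb : b ≠ t • b := fun h => ht (Bd.of_mem hB ((hK t).2 h.symm))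
  have f1 : ¬ ∀ s : K, ∃ l : ℕ, 0 < l ∧ (s * k * s⁻¹) ^ l ∈ IK K t :=
    fun f1 => ht (full hG hB k hτ hk hHP _ f1)
  push Not at f1
  obtain ⟨s₁, hs₁⟩ := f1
  obtain ⟨n, hn, hnd⟩ := exists_closer hT htb
  obtain ⟨g, hgn, hgf⟩ : ∃ g : K, (g : G) • n ≠ n ∧
      {s : K | s ∈ IK K t ∧ g⁻¹ * s * g ∈ IK K t}.Finite := by
    let _ := bact hB
    have hGB := geo_sub hG hB
    have := hGB.isom
    have := hGB.proper
    refine exists_elt hG hB (s₁ * k * s₁⁻¹) hτ (axis_conj hk s₁) ?_ t hs₁ ?_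
    · rw [eq_empty_iff_forall_notMem]
      rintro H ⟨h1, h2⟩
      have h3 : (fun z => s₁⁻¹ • H z) ∈ HP c := by
        refine ⟨fun p q => ?_, fun u => ?_⟩
        · rw [dist_smul]; exact h1 p q
        · show s₁⁻¹ • H (u, 0) = c u
          rw [h2 u, inv_smul_smul]
      rw [hHP] at h3
      exact h3
    · by_contra hcon
      push Not at hcon
      exact hn.ne (hfix n hcon).symm
  have hgb := (hK (g : G)).1 g.2
  have hmv := mv_of_ne hT hact hn hnd hgb hgn
  obtain ⟨k', hk1, hk2⟩ := exists_mv' hT hact hK hfix htb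
  obtain ⟨hax, hfx⟩ := ping hT hact htb hgb hmv hk1 hk2
  obtain ⟨o, ho⟩ := hB.ne
  refine ⟨_, rank_one_of_finite hT hact hG o hax 2 ?_⟩
  refine (hgf.image (fun s : K => (s : G))).subset ?_
  rintro s ⟨e1, e2⟩
  obtain ⟨x1, x2⟩ := hfx s e1 e2
  have hsK : s ∈ K := (hK s).2 x1
  refine ⟨⟨s, hsK⟩, ⟨?_, ?_⟩, rfl⟩
  · rw [mem_IK, hK]
    show (t⁻¹ * s * t) • b = b
    rw [mul_smul, mul_smul, e1, inv_smul_smul]
  · rw [mem_IK, hK]
    show (t⁻¹ * ((g : G)⁻¹ * s * g) * t) • b = b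
    have e : t⁻¹ * ((g : G)⁻¹ * s * g) * t = t⁻¹ * ((g : G)⁻¹ * s * ((g : G) * t)) := by group
    rw [e, mul_smul, mul_smul, mul_smul, mul_smul, x2, inv_smul_smul, inv_smul_smul]

/-- a cocompact subgroup contains powers of all elements -/
lemma pow_mem_of_cocompact (hG : Geo X G) {K : Subgroup G} {B : Set X} (hB : CC K B)
    (hall : ∀ x, x ∈ B) (F : G) : ∃ n : ℕ, 0 < n ∧ F ^ n ∈ K := by
  have := hG.isom
  obtain ⟨o, ho⟩ := hB.ne
  obtain ⟨D, hD0, hD⟩ := cc_near hG hB ho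
  have hF := finite_short hG o D
  have h1 : ∀ n : ℕ, ∃ g ∈ K, dist o ((g⁻¹ * F ^ n) • o) ≤ D := by
    intro n
    obtain ⟨g, hg, hgd⟩ := hD (F ^ n • o) (hall _)
    refine ⟨g, hg, ?_⟩
    rw [mul_smul, ← dist_smul g, smul_inv_smul, dist_comm]
    exact hgd
  choose g hg hgd using h1
  have hninj : ¬ Function.Injective (fun n : ℕ => (g n)⁻¹ * F ^ n) := by
    intro hinj
    have : (univ : Set ℕ).Finite :=
      Set.Finite.of_injOn (f := fun n : ℕ => (g n)⁻¹ * F ^ n) (fun n _ => hgd n)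
        (hinj.injOn) hF
    exact Set.infinite_univ this
  rw [Function.Injective] at hninj
  push Not at hninj
  have key : ∀ m n : ℕ, m < n → (g m)⁻¹ * F ^ m = (g n)⁻¹ * F ^ n →
      ∃ n : ℕ, 0 < n ∧ F ^ n ∈ K := by
    intro m n hmn he
    refine ⟨n - m, by omega, ?_⟩
    have e2 : F ^ n = F ^ (n - m) * F ^ m := by
      rw [← pow_add]; congr 1; omega
    rw [e2] at he
    have e3 : F ^ (n - m) = g n * (g m)⁻¹ := by
      have : (g m)⁻¹ = (g n)⁻¹ * F ^ (n - m) := by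
        have := congrArg (· * (F ^ m)⁻¹) he
        simpa [mul_assoc] using this
      rw [this]; group
    rw [e3]
    exact K.mul_mem (hg n) (K.inv_mem (hg m))
  obtain ⟨m, n, he, hne⟩ := hninj
  rcases lt_or_gt_of_ne hne with h | h
  · exact key m n h he
  · exact key n m h he.symm

include hT hact in
/-- the vertex stabiliser is not cocompact -/
lemma not_cocompact (hG : Geo X G) {K : Subgroup G} {B : Set X} (hB : CC K B) {b : V}
    (hK : ∀ s : G, s ∈ K ↔ s • b = b) (hfix : ∀ v : V, (∀ s ∈ K, s • v = v) → v = b)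
    (hne : ∃ t : G, t • b ≠ b) : ¬ ∀ x, x ∈ B := by
  intro hall
  obtain ⟨t, ht⟩ := hne
  obtain ⟨g, hg, hg'⟩ := exists_mv hT hact hK hfix ht.symm
  obtain ⟨k', hk1, hk2⟩ := exists_mv' hT hact hK hfix ht.symm
  obtain ⟨hax, -⟩ := ping hT hact ht.symm ((hK g).1 hg) hg' hk1 hk2
  obtain ⟨n, hn, hn'⟩ := pow_mem_of_cocompact hG hB hall (g * k')
  rw [hK] at hn'
  have h1 := D_pow hT hact hax (n * 2)
  have h2 : (g * k') ^ (n * 2) • b = b := by
    rw [pow_mul, pow_two, mul_smul, hn', hn']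
  have h3 := D_tri hT (t • b) b ((g * k') ^ (n * 2) • t • b)
  have h4 : D T b ((g * k') ^ (n * 2) • t • b) = D T b (t • b) := by
    have := D_smul hT hact ((g * k') ^ (n * 2)) b (t • b)
    rwa [h2] at this
  have h5 : D T (t • b) ((g * k') • t • b) = 2 * D T b (t • b) := by
    rw [mul_smul, hk1, hg']
  have h6 := D_pos hT ht.symm
  rw [h5] at h1
  rw [h4, h1, D_comm (t • b) b] at h3
  have h7 : (1 : ℤ) ≤ n := by exact_mod_cast hn
  push_cast at h3
  nlinarith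

include hT hact in
/-- **Main theorem** -/
theorem main (hG : Geo X G) (hGC : GC X) {K : Subgroup G} {B : Set X} (hB : CC K B) (k : K)
    {τ : ℝ} (hτ : 0 < τ) {c : ℝ → B} (hk : @Axis B _ K _ (bact hB) k τ c) (hHP : HP c = ∅)
    {b : V} (hK : ∀ s : G, s ∈ K ↔ s • b = b) (hfix : ∀ v : V, (∀ s ∈ K, s • v = v) → v = b)
    (hne : ∃ t : G, t • b ≠ b) : (∃ g : G, RankOne X g) ∨
      ∃ B₀ : Set X, B₀ ⊆ B ∧ CC K B₀ ∧ Nontrivial B₀ ∧
      ∃ (Z : Type) (_ : MetricSpace Z) (_ : Nontrivial Z) (e : X ≃ Z × B₀),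
      ∀ x x' : X, dist x x' ^ 2 = dist (e x).1 (e x').1 ^ 2 + dist (e x).2 (e x').2 ^ 2 := by
  have := hG.isom
  rcases rank_one_or hT hact hG hB k hτ hk hHP hK hfix with h | h
  · exact Or.inl h
  · right
    obtain ⟨B₀, hsub, h₀, h1 | h1⟩ := split_of_bd hG hGC hB h
    · exact absurd h1 (not_cocompact hT hact hG h₀ hK hfix hne)
    · exact ⟨B₀, hsub, h₀, nontrivial_of_axis hB h₀ hsub k hτ hk, h1⟩

end Pool.Agent.U631.VG
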